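import Pool.Agent.Helper54.SP.StmtsW

/-!
Module ES of the `SPR_d` project (helper54): the planar sign function is computable in
polynomial time.
-/

namespace Pool.Agent.Helper54.SP

open Pool.Agent.Helper54.Poly

section es

variable {α β : Type} [TEnc α] [TEnc β]

theorem es_ite {P : α → Prop} [∀ x, Decidable (P x)] {f g : α → β}
    (hP : PT fun x => decide (P x)) (hf : PT f) (hg : PT g) :
    PT (fun x => if P x then f x else g x) :=
  (PT.ite hP hf hg).congr fun x => by simp only [decide_eq_true_eq]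

theorem es_lt {f g : α → ℕ} (hf : PT f) (hg : PT g) : PT (fun x => decide (f x < g x)) :=
  (PT.leN (PT.succ hf) hg).congr fun _ => decide_eq_decide.mpr Iff.rfl

theorem es_and {P Q : α → Prop} [∀ x, Decidable (P x)] [∀ x, Decidable (Q x)]
    (hP : PT fun x => decide (P x)) (hQ : PT fun x => decide (Q x)) :
    PT (fun x => decide (P x ∧ Q x)) :=
  (PT.and hP hQ).congr fun x => by
    by_cases h1 : P x <;> by_cases h2 : Q x <;> simp [h1, h2]

theorem es_or {P Q : α → Prop} [∀ x, Decidable (P x)] [∀ x, Decidable (Q x)]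
    (hP : PT fun x => decide (P x)) (hQ : PT fun x => decide (Q x)) :
    PT (fun x => decide (P x ∨ Q x)) :=
  (PT.or hP hQ).congr fun x => by
    by_cases h1 : P x <;> by_cases h2 : Q x <;> simp [h1, h2]

theorem es_bool {b : α → Bool} (hb : PT b) : PT (fun x => decide (b x = true)) :=
  hb.congr fun x => by cases b x <;> rfl

theorem es_xor {f g : α → Bool} (hf : PT f) (hg : PT g) : PT (fun x => xor (f x) (g x)) :=
  (PT.beq hf hg).not.congr fun x => by cases f x <;> cases g x <;> rfl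

theorem es_tb {a b c : α → ℕ} {s : α → Bool} (ha : PT a) (hb : PT b) (hc : PT c) (hs : PT s) :
    PT (fun x => tb (a x) (b x) (c x) (s x)) := by
  have k : ∀ n : ℕ, PT (fun _ : α => n) := fun n => PT.const n
  unfold tb
  exact es_ite (PT.eqN ha hb)
    (es_ite (PT.eqN ha (k 0)) (es_ite (PT.eqN hc (k 1)) (PT.const true) hs)
      (es_ite (PT.eqN ha (k 1)) hs.not (PT.const true)))
    (es_ite (PT.eqN hb hc)
      (es_ite (PT.eqN hb (k 1)) (PT.const true) (es_ite (PT.eqN hb (k 2)) hs.not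
        (es_ite (PT.eqN ha (k 2)) (PT.const false) hs)))
      (es_ite (es_and (PT.eqN ha (k 0)) (PT.eqN hb (k 1))) hs hs.not))

theorem es_dsg (h8 : ST_E8) (hK : ST_EK) {Γ : α → List Gt} {p q r : α → ℕ} (hΓ : PT Γ)
    (hp : PT p) (hq : PT q) (hr : PT r) : PT (fun x => dsg (Γ x) (p x) (q x) (r x)) := by
  have k : ∀ n : ℕ, PT (fun _ : α => n) := fun n => PT.const n
  obtain ⟨-, cq, gq, -, xq, yq, sq, -⟩ := hK Γ q hΓ hq
  obtain ⟨-, cr, -, -, xr, yr, sr, -⟩ := hK Γ r hΓ hr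
  have c2 := (h8 _ cq).2.2.1
  have r2 := (h8 _ cr).2.2.1
  have hk : PT (fun x => (gat (Γ x) (q x)).k) := gq.fst
  unfold dsg
  exact es_ite (PT.eqN hp (es_ite (es_bool hk) (k 3) (k 2))) (es_lt sr sq)
    (es_ite (es_or (es_and (PT.eqN c2 (k 0)) (PT.eqN r2 (k 1)))
      (es_or (es_and (PT.eqN c2 (k 1)) (PT.eqN r2 (k 1)))
        (es_and (PT.eqN c2 (k 2)) (PT.eqN r2 (k 3)))))
      (es_xor (es_and (PT.eqN hp (k 2)) (es_bool hk)) (es_lt xq xr))
      (es_lt yq yr))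

theorem es_sg0 (h8 : ST_E8) (hK : ST_EK) {Γ : α → List Gt} {p q r : α → ℕ} (hΓ : PT Γ)
    (hp : PT p) (hq : PT q) (hr : PT r) : PT (fun x => sg0 (Γ x) (p x) (q x) (r x)) := by
  have k : ∀ n : ℕ, PT (fun _ : α => n) := fun n => PT.const n
  obtain ⟨gp, cp, -, -, -, yp, -, -⟩ := hK Γ p hΓ hp
  obtain ⟨gq, cq, tq, -, xq, yq, -, -⟩ := hK Γ q hΓ hq
  obtain ⟨gr, cr, -, -, xr, yr, -, -⟩ := hK Γ r hΓ hr
  have hu : PT (fun x => (gat (Γ x) (q x)).u) := tq.snd.snd.fst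
  have ha : PT (fun x => (gat (Γ x) (q x)).a) := tq.snd.snd.snd.snd.fst
  unfold sg0
  exact es_ite (PT.eqN hp (k 0)) (es_ite (PT.eqN hq (k 1)) (PT.const false) (es_lt xq xr))
    (es_ite (PT.eqN hp (k 1)) (es_lt yr yq)
      (es_ite (es_lt gq gr) (es_lt yq yp)
        (es_ite (es_lt gp gq) (es_dsg h8 hK hΓ hp hq hr)
          (es_tb (h8 _ cp).2.2.1 (h8 _ cq).2.2.1 (h8 _ cr).2.2.1 (es_lt hu ha)))))

theorem es_sg3 (h8 : ST_E8) (hK : ST_EK) {Γ : α → List Gt} {p q r : α → ℕ} (hΓ : PT Γ)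
    (hp : PT p) (hq : PT q) (hr : PT r) : PT (fun x => sg3 (Γ x) (p x) (q x) (r x)) := by
  unfold sg3
  exact es_ite (es_lt hp hq)
    (es_ite (es_lt hq hr) (es_sg0 h8 hK hΓ hp hq hr)
      (es_ite (es_lt hp hr) (es_sg0 h8 hK hΓ hp hr hq).not (es_sg0 h8 hK hΓ hr hp hq)))
    (es_ite (es_lt hp hr) (es_sg0 h8 hK hΓ hq hp hr).not
      (es_ite (es_lt hq hr) (es_sg0 h8 hK hΓ hq hr hp) (es_sg0 h8 hK hΓ hr hq hp).not))

end es

theorem st_ES (h8 : ST_E8) (hK : ST_EK) : ST_ES := by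
  intro α _ Γ l hΓ hl
  have k : ∀ n : ℕ, PT (fun _ : α => n) := fun n => PT.const n
  exact es_sg3 h8 hK hΓ (PT.getD (k 0) hl (k 0)) (PT.getD (k 1) hl (k 0))
    (PT.getD (k 2) hl (k 0))

end Pool.Agent.Helper54.SP
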