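import Pool.Agent.Helper54.SP.StmtsW

/-!
Module E8 of the `SPR_d` project (helper54): division by fixed numbers is computable in
polynomial time (unary numbers).
-/

namespace Pool.Agent.Helper54.SP

open Pool.Agent.Helper54.Poly

theorem e8_len (c N : ℕ) (hc : 0 < c) (n : ℕ) :
    ((List.range n).flatMap fun q => if decide (c * (q + 1) ≤ N) then [()] else []).length =
      min n (N / c) := by
  induction n with
  | zero => simp
  | succ n ih =>
    rw [List.range_succ, List.flatMap_append, List.length_append, ih]
    have h1 : c * (n + 1) ≤ N ↔ n + 1 ≤ N / c := by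
      rw [Nat.le_div_iff_mul_le hc, mul_comm]
    by_cases h : c * (n + 1) ≤ N
    · have h2 := h1.1 h
      simp only [List.flatMap_cons, List.flatMap_nil, h, decide_true, if_true,
        List.length_append, List.length_singleton, List.length_nil]
      omega
    · have h2 : ¬ n + 1 ≤ N / c := fun h3 => h (h1.2 h3)
      simp only [List.flatMap_cons, List.flatMap_nil, h, decide_false, Bool.false_eq_true,
        if_false, List.length_append, List.length_nil]
      omega

theorem e8_div {α : Type} [TEnc α] {f : α → ℕ} (hf : PT f) (c : ℕ) (hc : 0 < c) :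
    PT (fun a => f a / c) := by
  have h1 : PT (fun z : α × ℕ => if decide (c * (z.2 + 1) ≤ f z.1) then [()] else []) :=
    PT.ite (PT.leN (PT.mul (PT.const c) (PT.succ PT.id.snd)) (hf.comp PT.id.fst))
      (PT.const [()]) (PT.const [])
  refine (PT.length (PT.flatMap h1 (PT.range hf))).congr fun a => ?_
  rw [e8_len c (f a) hc (f a)]
  exact min_eq_right (Nat.div_le_self _ _)

theorem e8_mod {α : Type} [TEnc α] {f : α → ℕ} (hf : PT f) (c : ℕ) (hc : 0 < c) :
    PT (fun a => f a % c) := by
  refine (PT.sub hf (PT.mul (PT.const c) (e8_div hf c hc))).congr fun a => ?_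
  have := Nat.div_add_mod (f a) c
  omega

theorem st_E8 : ST_E8 := by
  intro α _ f hf
  exact ⟨e8_div hf 8 (by norm_num), e8_mod hf 8 (by norm_num), e8_div hf 2 (by norm_num),
    e8_mod hf 2 (by norm_num)⟩

end Pool.Agent.Helper54.SP
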