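import Pool.Agent.Helper54.SP.StmtsW

/-!
Module EB of the `SPR_d` project (helper54): the bilinear system is computable in polynomial
time.
-/

namespace Pool.Agent.Helper54.SP

open Pool.Agent.Helper54.Poly

section eb

variable {α : Type} [TEnc α]

theorem eb_row {a₀ b₀ a₁ b₁ a₂ b₂ a₃ b₃ a₄ b₄ : α → ℕ} (h0 : PT a₀) (k0 : PT b₀) (h1 : PT a₁)
    (k1 : PT b₁) (h2 : PT a₂) (k2 : PT b₂) (h3 : PT a₃) (k3 : PT b₃) (h4 : PT a₄)
    (k4 : PT b₄) :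
    PT (fun x => ([(a₀ x, b₀ x), (a₁ x, b₁ x), (a₂ x, b₂ x), (a₃ x, b₃ x), (a₄ x, b₄ x)] :
      List (ℕ × ℕ))) :=
  PT.lcons (h0.pair k0) (PT.lcons (h1.pair k1) (PT.lcons (h2.pair k2)
    (PT.lcons (h3.pair k3) (PT.lcons (h4.pair k4) (PT.const [])))))

theorem eb_qn {ν : α → ℕ} (h : PT ν) : PT (fun x => qn (ν x)) := by
  unfold qn
  have hm := PT.add h (PT.const 1)
  have hn := PT.add (PT.mul (PT.const 30) h) (PT.const 10)
  have h1 := PT.add (PT.mul (PT.const 6) (PT.add hn (PT.const 2))) (PT.const 1)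
  exact PT.add (PT.mul h1 hm) (PT.add (PT.const 1) (PT.mul (PT.add (PT.const 9)
    (PT.mul (PT.const 6) (PT.add (PT.add hn (PT.const 2)) (PT.add hn (PT.const 3)))))
    (PT.mul hm h1)))

theorem eb_an {ν : α → ℕ} (h : PT ν) : PT (fun x => an (ν x)) :=
  PT.add (eb_qn h) (PT.const 6)

theorem eb_bn {ν : α → ℕ} (h : PT ν) : PT (fun x => bn (ν x)) :=
  PT.add (PT.add (PT.mul (PT.const 2) (eb_qn h)) (PT.mul (PT.const 2) h)) (PT.const 40)

theorem eb_Kn {ν : α → ℕ} (h : PT ν) : PT (fun x => Kn (ν x)) :=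
  PT.add (PT.add (PT.add (PT.const 8) (eb_an h)) (eb_bn h)) (PT.mul (PT.const 3) h)

theorem eb_xv {ν i : α → ℕ} (h : PT ν) (hi : PT i) : PT (fun x => xv (ν x) (i x)) :=
  PT.add (PT.add (PT.add (PT.const 7) (eb_an h)) (eb_bn h)) hi

theorem eb_av {ν t r : α → ℕ} (h : PT ν) (ht : PT t) (hr : PT r) :
    PT (fun x => av (ν x) (t x) (r x)) :=
  PT.add (PT.add (PT.add (PT.add (PT.add (PT.const 7) (eb_an h)) (eb_bn h)) h)
    (PT.mul (PT.const 2) ht)) hr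

theorem eb_hv {ν i : α → ℕ} (h : PT ν) (hi : PT i) : PT (fun x => hv (ν x) (i x)) :=
  PT.add (PT.add (PT.const 6) (eb_an h)) hi

theorem eb_bdI {ν u : α → ℕ} (h : PT ν) (hu : PT u) : PT (fun x => bdI (ν x) (u x)) := by
  have c : ∀ n : ℕ, PT (fun _ : α => n) := fun n => PT.const n
  exact PT.lcons (eb_row hu (c 0) (c 0) (c 0) (c 1) (c 0) (PT.add (c 5) (eb_an h)) (c 0) (c 0)
      (c 0))
    (PT.lcons (eb_row hu (c 4) (c 0) (c 0) (c 1) (c 0) (c 0) hu (c 0) (c 0))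
    (PT.lcons (eb_row (c 0) hu (c 0) (c 0) (c 1) (c 0) hu (c 3) (c 0) (c 0)) (PT.const [])))

theorem eb_stI {ν : α → ℕ} (h : PT ν) : PT (fun x => stI (ν x)) := by
  have c : ∀ n : ℕ, PT (fun _ : α => n) := fun n => PT.const n
  have h0 := eb_hv h (c 0)
  have hb := eb_hv h (eb_bn h)
  exact PT.lcons (eb_row (c 5) (c 0) (c 1) (c 0) (c 1) (c 0) (c 0) (c 0) (c 0) (c 0))
    (PT.lcons (eb_row (c 0) (c 5) (c 1) (c 0) (c 1) (c 0) (c 0) (c 0) (c 0) (c 0))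
    (PT.lcons (eb_row h0 (c 0) h0 (c 0) (c 0) (c 0) (c 0) (c 0) (c 0) (c 0))
    (PT.lcons (eb_row (c 0) h0 (c 0) h0 (c 0) (c 0) (c 0) (c 0) (c 0) (c 0))
    (PT.lcons (eb_row (c 0) (c 3) (c 1) (c 0) (c 1) (c 0) (c 0) (c 0) hb (c 0))
    (PT.lcons (eb_row (c 0) (c 0) (c 1) (c 0) (c 1) (c 0) (c 0) (c 4) hb (c 0))
      (PT.const []))))))

theorem eb_sqI {u w : α → ℕ} (hu : PT u) (hw : PT w) : PT (fun x => sqI (u x) (w x)) := by
  have c : ∀ n : ℕ, PT (fun _ : α => n) := fun n => PT.const n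
  exact PT.lcons (eb_row hw (c 0) (c 0) (c 0) (c 1) (c 0) hu hu (c 0) (c 0))
    (PT.lcons (eb_row (c 0) hw (c 0) (c 0) (c 1) (c 0) hu hu (c 0) (c 0)) (PT.const []))

theorem eb_eqI {ν t : α → ℕ} {e : α → Be} (h : PT ν) (ht : PT t) (he : PT e) :
    PT (fun x => eqI (ν x) (t x) (e x)) := by
  have c : ∀ n : ℕ, PT (fun _ : α => n) := fun n => PT.const n
  have hi := eb_xv h he.snd.fst
  have hj := eb_xv h he.snd.snd.fst
  have hk := eb_xv h he.snd.snd.snd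
  have ha := eb_av h ht (c 0)
  have hb := eb_av h ht (c 1)
  have h0 := PT.lcons (eb_row hi (c 4) (c 1) (c 0) (c 1) (c 0) (c 2) (c 0) (c 0) (c 0))
    (PT.lcons (eb_row (c 2) (c 0) (c 0) (c 0) (c 0) (c 0) hi (c 3) (c 0) (c 0)) (PT.const []))
  have h1 := PT.lcons (eb_row hi (c 0) hj (c 0) (c 1) (c 0) hk (c 3) (c 2) (c 3))
    (PT.lcons (eb_row hk (c 4) (c 2) (c 4) (c 1) (c 0) hi (c 0) hj (c 0)) (PT.const []))
  have h2 := PT.lcons (eb_row hi hj (c 2) (c 2) (c 0) (c 0) ha (c 3) (c 0) (c 0))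
    (PT.lcons (eb_row ha (c 4) (c 1) (c 0) (c 1) (c 0) hi hj (c 2) (c 2))
    (PT.lcons (eb_row hi (c 2) hj (c 2) (c 0) (c 0) hb (c 3) (c 0) (c 0))
    (PT.lcons (eb_row hb (c 4) (c 1) (c 0) (c 1) (c 0) hi (c 2) hj (c 2))
    (PT.lcons (eb_row ha (c 0) (c 2) (c 0) (c 1) (c 0) hk (c 3) hb (c 3))
    (PT.lcons (eb_row hk (c 4) hb (c 4) (c 1) (c 0) ha (c 0) (c 2) (c 0))
      (PT.const []))))))
  refine (PT.ite (PT.eqN he.fst (c 0)) h0 (PT.ite (PT.eqN he.fst (c 1)) h1 h2)).congr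
    fun x => ?_
  unfold eqI
  simp only [decide_eq_true_eq]

end eb

theorem st_EB : ST_EB := by
  intro α _ E hE
  have hν := PT.length hE
  refine ⟨?_, eb_Kn hν⟩
  have c : ∀ n : ℕ, PT (fun _ : α × ℕ => n) := fun n => PT.const n
  have hν' : PT (fun z : α × ℕ => (E z.1).length) := hν.comp PT.id.fst
  have m1 : PT (fun z : α × ℕ => sqI (5 + z.2) (5 + z.2 + 1)) :=
    eb_sqI (PT.add (c 5) PT.id.snd) (PT.add (PT.add (c 5) PT.id.snd) (c 1))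
  have m2 : PT (fun z : α × ℕ => sqI (hv (E z.1).length z.2) (hv (E z.1).length (z.2 + 1))) :=
    eb_sqI (eb_hv hν' PT.id.snd) (eb_hv hν' (PT.add PT.id.snd (c 1)))
  have m3 : PT (fun z : α × ℕ => bdI (E z.1).length (xv (E z.1).length z.2)) :=
    eb_bdI hν' (eb_xv hν' PT.id.snd)
  have m4 : PT (fun z : α × ℕ => eqI (E z.1).length z.2 ((E z.1).getD z.2 (0, 0, 0, 0))) :=
    eb_eqI hν' PT.id.snd (PT.getD PT.id.snd (hE.comp PT.id.fst) (PT.const (0, 0, 0, 0)))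
  exact PT.append (eb_stI hν) (PT.append (PT.flatMap m1 (PT.range (eb_an hν)))
    (PT.append (PT.flatMap m2 (PT.range (eb_bn hν)))
    (PT.append (eb_bdI hν (PT.const 2))
    (PT.append (PT.flatMap m3 (PT.range (PT.mul (PT.const 3) hν)))
      (PT.flatMap m4 (PT.range hν))))))

end Pool.Agent.Helper54.SP
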