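import Pool.Agent.Helper54.SP.StmtsW

/-!
Module EF of the `SPR_d` project (helper54): the facet list is computable in polynomial time.
-/

namespace Pool.Agent.Helper54.SP

open Pool.Agent.Helper54.Poly

section ef

variable {α : Type} [TEnc α]

theorem ef_elem {f : α → List ℕ} {i : α → ℕ} (hf : PT f) (hi : PT i) :
    PT (fun x => (f x).elem (i x)) := by
  have h1 : PT (fun z : α × ℕ => !decide (z.2 = i z.1)) :=
    (PT.eqN PT.id.snd (hi.comp PT.id.fst)).not
  have h2 := (PT.all h1 hf).not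
  refine h2.congr fun x => ?_
  rw [Bool.eq_iff_iff]
  simp only [Bool.not_eq_true', List.elem_eq_mem, decide_eq_true_eq]
  rw [← Bool.not_eq_true, List.all_eq_true]
  simp only [Bool.not_eq_true', decide_eq_false_iff_not]
  constructor
  · intro h
    by_contra h3
    exact h fun b hb hbi => h3 (hbi ▸ hb)
  · intro h h3
    exact h3 _ h rfl

theorem ef_oneS (hC : ST_EC) (m : ℕ) {Γ : α → List Gt} {nw n : α → ℕ} {f : α → List ℕ}
    (hΓ : PT Γ) (hw : PT nw) (hn : PT n) (hf : PT f) :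
    PT (fun x => oneS (chF (Γ x) (nw x) m) (n x) (f x)) := by
  have h1 : PT (fun z : (α × ℕ) × ℕ => (f z.1.1).elem z.1.2 || (f z.1.1).elem z.2 ||
      (chF (Γ z.1.1) (nw z.1.1) m (f z.1.1 ++ [z.1.2]) ==
        chF (Γ z.1.1) (nw z.1.1) m (f z.1.1 ++ [z.2]))) := by
    have e1 : PT (fun z : (α × ℕ) × ℕ => f z.1.1) := hf.comp PT.id.fst.fst
    have e2 : PT (fun z : (α × ℕ) × ℕ => Γ z.1.1) := hΓ.comp PT.id.fst.fst
    have e3 : PT (fun z : (α × ℕ) × ℕ => nw z.1.1) := hw.comp PT.id.fst.fst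
    have x1 : PT (fun z : (α × ℕ) × ℕ => z.1.2) := PT.id.fst.snd
    have x2 : PT (fun z : (α × ℕ) × ℕ => z.2) := PT.id.snd
    exact PT.or (PT.or (ef_elem e1 x1) (ef_elem e1 x2))
      (PT.beq (hC m _ _ _ e2 e3 (PT.append e1 (PT.lcons x1 (PT.const []))))
        (hC m _ _ _ e2 e3 (PT.append e1 (PT.lcons x2 (PT.const [])))))
  have h2 : PT (fun z : α × ℕ => (List.range (n z.1)).all fun y =>
      (f z.1).elem z.2 || (f z.1).elem y ||
        (chF (Γ z.1) (nw z.1) m (f z.1 ++ [z.2]) == chF (Γ z.1) (nw z.1) m (f z.1 ++ [y]))) :=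
    PT.all h1 (PT.range (hn.comp PT.id.fst))
  exact PT.all h2 (PT.range hn)

end ef

theorem st_EF (hC : ST_EC) (hU : ST_EU) : ST_EF := by
  intro m α _ Γ nw hΓ hw
  have hN : PT (fun a => NN (Γ a) + m) :=
    PT.add (PT.add (PT.const 4) (PT.mul (PT.const 8) (PT.length hΓ))) (PT.const m)
  have h1 : PT (fun z : α × List ℕ =>
      if oneS (chF (Γ z.1) (nw z.1) m) (NN (Γ z.1) + m) z.2 then [z.2] else []) :=
    PT.ite (ef_oneS hC m (hΓ.comp PT.id.fst) (hw.comp PT.id.fst) (hN.comp PT.id.fst) PT.id.snd)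
      (PT.lcons PT.id.snd (PT.const [])) (PT.const [])
  exact PT.flatMap h1 (hU (2 + m) _ _ (PT.const 0) hN)

end Pool.Agent.Helper54.SP
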