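import Pool.Agent.Helper54.SP.StmtsW

/-!
Module RS of the `SPR_d` project (helper54): soundness of the bilinear system.
-/

namespace Pool.Agent.Helper54.SP

/-- the inequality belonging to a list of five pairs -/
theorem rs_get {x y : ℕ → ℝ} {Q : List (List (ℕ × ℕ))}
    (h : ∀ q ∈ Q, pp x y q 0 + pp x y q 1 + pp x y q 2 < pp x y q 3 + pp x y q 4)
    {a₀ b₀ a₁ b₁ a₂ b₂ a₃ b₃ a₄ b₄ : ℕ}
    (hm : [(a₀, b₀), (a₁, b₁), (a₂, b₂), (a₃, b₃), (a₄, b₄)] ∈ Q) :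
    x a₀ * y b₀ + x a₁ * y b₁ + x a₂ * y b₂ < x a₃ * y b₃ + x a₄ * y b₄ := by
  have := h _ hm
  simpa [pp, ks, js] using this

/-- normalization -/
theorem rs_norm {Q : List (List (ℕ × ℕ))} (h : BSat Q) :
    ∃ x y : ℕ → ℝ, (∀ i, 0 < x i) ∧ (∀ i, 0 < y i) ∧ x 0 = 1 ∧ y 0 = 1 ∧
      ∀ q ∈ Q, pp x y q 0 + pp x y q 1 + pp x y q 2 < pp x y q 3 + pp x y q 4 := by
  obtain ⟨x, y, hx, hy, hq⟩ := h
  have hxy : 0 < x 0 * y 0 := mul_pos (hx 0) (hy 0)
  refine ⟨fun i => x i / x 0, fun i => y i / y 0, fun i => div_pos (hx i) (hx 0),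
    fun i => div_pos (hy i) (hy 0), div_self (hx 0).ne', div_self (hy 0).ne', fun q hq' => ?_⟩
  have key : ∀ i, pp (fun i => x i / x 0) (fun i => y i / y 0) q i =
      pp x y q i / (x 0 * y 0) := by
    intro i
    simp only [pp]
    rw [div_mul_div_comm]
  rw [key, key, key, key, key, ← add_div, ← add_div, ← add_div]
  exact div_lt_div_of_pos_right (hq q hq') hxy

/-- the chain of large numbers -/
theorem rs_up {X Y : ℕ → ℝ} (hX : ∀ i, 0 < X i) (hY : ∀ i, 0 < Y i) (f : ℕ → ℕ) (n : ℕ)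
    (h0 : X (f 0) < 2) (h0' : Y (f 0) < 2)
    (hs : ∀ i < n, X (f (i + 1)) < X (f i) * Y (f i) ∧ Y (f (i + 1)) < X (f i) * Y (f i)) :
    ∀ i ≤ n, X (f i) < 2 ^ 2 ^ i ∧ Y (f i) < 2 ^ 2 ^ i := by
  intro i
  induction i with
  | zero => intro _; simpa using ⟨h0, h0'⟩
  | succ i ih =>
    intro hi
    obtain ⟨h1, h2⟩ := ih (by omega)
    obtain ⟨h3, h4⟩ := hs i (by omega)
    have h5 : X (f i) * Y (f i) < 2 ^ 2 ^ i * 2 ^ 2 ^ i :=
      mul_lt_mul'' h1 h2 (hX _).le (hY _).le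
    have h6 : (2 : ℝ) ^ 2 ^ (i + 1) = 2 ^ 2 ^ i * 2 ^ 2 ^ i := by
      rw [← pow_add]; congr 1; rw [pow_succ]; ring
    rw [h6]
    exact ⟨h3.trans h5, h4.trans h5⟩

/-- the chain of small numbers -/
theorem rs_dn {X Y : ℕ → ℝ} (hX : ∀ i, 0 < X i) (hY : ∀ i, 0 < Y i) (f : ℕ → ℕ) (n : ℕ)
    (h0 : X (f 0) < 1 / 2) (h0' : Y (f 0) < 1 / 2)
    (hs : ∀ i < n, X (f (i + 1)) < X (f i) * Y (f i) ∧ Y (f (i + 1)) < X (f i) * Y (f i)) :
    ∀ i ≤ n, X (f i) < (1 / 2) ^ 2 ^ i ∧ Y (f i) < (1 / 2) ^ 2 ^ i := by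
  intro i
  induction i with
  | zero => intro _; exact ⟨by simpa using h0, by simpa using h0'⟩
  | succ i ih =>
    intro hi
    obtain ⟨h1, h2⟩ := ih (by omega)
    obtain ⟨h3, h4⟩ := hs i (by omega)
    have h5 : X (f i) * Y (f i) < (1 / 2) ^ 2 ^ i * (1 / 2) ^ 2 ^ i :=
      mul_lt_mul'' h1 h2 (hX _).le (hY _).le
    have h6 : (1 / 2 : ℝ) ^ 2 ^ (i + 1) = (1 / 2) ^ 2 ^ i * (1 / 2) ^ 2 ^ i := by
      rw [← pow_add]; congr 1; rw [pow_succ]; ring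
    rw [h6]
    exact ⟨h3.trans h5, h4.trans h5⟩

/-- exponents -/
theorem rs_exp {h M : ℝ} {a b : ℕ} (hM : M = 2 ^ 2 ^ a) (hab : a + 1 ≤ b - 8) (hb : 10 ≤ b)
    (h1 : h ≤ (1 / 2) ^ 2 ^ b) : h * (8 * M ^ 2) * 2 ^ 2 ^ (b - 8) ≤ 1 := by
  have e1 : (8 * M ^ 2) * 2 ^ 2 ^ (b - 8) = 2 ^ (3 + 2 ^ (a + 1) + 2 ^ (b - 8)) := by
    have gen : ∀ x y : ℕ, (2 : ℝ) ^ (3 + x + y) = 8 * 2 ^ x * 2 ^ y := by
      intro x y
      rw [pow_add, pow_add]
      norm_num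
    rw [hM, gen, ← pow_mul, pow_succ]
  have e2 : 3 + 2 ^ (a + 1) + 2 ^ (b - 8) ≤ 2 ^ b := by
    have h2 : 2 ^ (a + 1) ≤ 2 ^ (b - 8) := Nat.pow_le_pow_right (by norm_num) hab
    have h3 : 2 ^ b = 2 ^ (b - 8) * 256 := by
      rw [show b = (b - 8) + 8 by omega, pow_add]
      norm_num
    have h4 : 2 ^ 2 ≤ 2 ^ (b - 8) := Nat.pow_le_pow_right (by norm_num) (by omega)
    omega
  have e3 : (2 : ℝ) ^ (3 + 2 ^ (a + 1) + 2 ^ (b - 8)) ≤ 2 ^ 2 ^ b :=
    pow_le_pow_right₀ (by norm_num) e2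
  rw [mul_assoc, e1]
  calc h * 2 ^ (3 + 2 ^ (a + 1) + 2 ^ (b - 8))
      ≤ (1 / 2) ^ 2 ^ b * 2 ^ 2 ^ b :=
        mul_le_mul h1 e3 (by positivity) (by positivity)
    _ = 1 := by rw [← mul_pow]; norm_num

/-- relative errors -/
theorem rs_rel {h T y3 y4 : ℝ} (hh : 0 < h) (h3 : y3 < 1 + h) (h4 : 1 - h < y4) {u : ℝ}
    (hu : 0 < u) (huT : u ≤ T) : u * y3 ≤ u + h * T ∧ u - h * T ≤ u * y4 := by
  have e1 : u * y3 ≤ u * (1 + h) := mul_le_mul_of_nonneg_left h3.le hu.le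
  have e2 : u * (1 - h) ≤ u * y4 := mul_le_mul_of_nonneg_left h4.le hu.le
  have e3 : h * u ≤ h * T := mul_le_mul_of_nonneg_left huT hh.le
  exact ⟨by linarith, by linarith⟩

/-- products -/
theorem rs_prod {h T u y w : ℝ} (hh : 0 < h) (hu : 0 < u) (huT : u ≤ T) (hT : 0 < T)
    (h1 : w - h * T ≤ y) (h2 : y ≤ w + h * T) :
    u * y ≤ u * w + h * T ^ 2 ∧ u * w - h * T ^ 2 ≤ u * y := by
  have e1 : u * y ≤ u * (w + h * T) := mul_le_mul_of_nonneg_left h2 hu.le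
  have e2 : u * (w - h * T) ≤ u * y := mul_le_mul_of_nonneg_left h1 hu.le
  have e3 : u * (h * T) ≤ T * (h * T) := mul_le_mul_of_nonneg_right huT (by positivity)
  have e4 : T * (h * T) = h * T ^ 2 := by ring
  exact ⟨by linarith, by linarith⟩

/-- the product equation -/
theorem rs_mul {h T xi xj xk x2 yj y2 A B y3 y4 x1 : ℝ} (hh : 0 < h) (hT : 1 ≤ T)
    (h3 : y3 < 1 + h) (h4 : 1 - h < y4) (hx1 : 0 < x1)
    (pi : 0 < xi) (pj : 0 < xj) (pk : 0 < xk) (p2 : 0 < x2) (pA : 0 < A) (pB : 0 < B)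
    (ti : xi ≤ T) (tj : xj ≤ T) (tk : xk ≤ T) (t2 : x2 ≤ T) (tA : A ≤ T) (tB : B ≤ T)
    (cj : xj - h * T ≤ yj ∧ yj ≤ xj + h * T) (c2 : x2 - h * T ≤ y2 ∧ y2 ≤ x2 + h * T)
    (e1 : xi * yj + x2 * y2 + 1 < A * y3 + 1)
    (e2 : A * y4 + x1 + x1 < xi * yj + x2 * y2)
    (e3 : xi * y2 + xj * y2 + 1 < B * y3 + 1)
    (e4 : B * y4 + x1 + x1 < xi * y2 + xj * y2)
    (e5 : A + x2 + x1 < xk * y3 + B * y3)
    (e6 : xk * y4 + B * y4 + x1 < A + x2) :
    |(xi - x2) * (xj - x2) - (xk - x2)| ≤ h * (8 * T ^ 2) := by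
  have hT0 : 0 < T := by linarith
  obtain ⟨a1, a2⟩ := rs_rel hh h3 h4 pA tA
  obtain ⟨a3, a4⟩ := rs_rel hh h3 h4 pB tB
  obtain ⟨a5, a6⟩ := rs_rel hh h3 h4 pk tk
  obtain ⟨b1, b2⟩ := rs_prod hh pi ti hT0 cj.1 cj.2
  obtain ⟨b3, b4⟩ := rs_prod hh p2 t2 hT0 c2.1 c2.2
  obtain ⟨b5, b6⟩ := rs_prod hh pi ti hT0 c2.1 c2.2
  obtain ⟨b7, b8⟩ := rs_prod hh pj tj hT0 c2.1 c2.2
  have hTT : h * T ≤ h * T ^ 2 := by
    have : T ≤ T ^ 2 := by nlinarith
    exact mul_le_mul_of_nonneg_left this hh.le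
  have e : (xi - x2) * (xj - x2) - (xk - x2) =
      (xi * xj + x2 * x2) - (xi * x2 + xj * x2) - xk + x2 := by ring
  rw [e, abs_le]
  constructor
  · linarith
  · linarith

theorem rs_one {h T xi x2 y3 y4 x1 : ℝ} (hh : 0 < h) (hT : 1 ≤ T)
    (h3 : y3 < 1 + h) (h4 : 1 - h < y4) (hx1 : 0 < x1) (pi : 0 < xi) (ti : xi ≤ T)
    (e1 : xi * y4 + x1 + x1 < x2 + 1) (e2 : x2 + 1 + 1 < xi * y3 + 1) :
    |(xi - x2) - 1| ≤ h * (8 * T ^ 2) := by
  obtain ⟨a1, a2⟩ := rs_rel hh h3 h4 pi ti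
  have hTT : h * T ≤ h * T ^ 2 := by
    have : T ≤ T ^ 2 := by nlinarith
    exact mul_le_mul_of_nonneg_left this hh.le
  have : 0 < h * T ^ 2 := by positivity
  rw [abs_le]
  constructor <;> linarith

theorem rs_add {h T xi xj xk x2 y3 y4 x1 : ℝ} (hh : 0 < h) (hT : 1 ≤ T)
    (h3 : y3 < 1 + h) (h4 : 1 - h < y4) (hx1 : 0 < x1) (pk : 0 < xk) (tk : xk ≤ T)
    (p2 : 0 < x2) (t2 : x2 ≤ T)
    (e1 : xi + xj + x1 < xk * y3 + x2 * y3) (e2 : xk * y4 + x2 * y4 + x1 < xi + xj) :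
    |(xi - x2) + (xj - x2) - (xk - x2)| ≤ h * (8 * T ^ 2) := by
  obtain ⟨a1, a2⟩ := rs_rel hh h3 h4 pk tk
  obtain ⟨a3, a4⟩ := rs_rel hh h3 h4 p2 t2
  have hTT : h * T ≤ h * T ^ 2 := by
    have : T ≤ T ^ 2 := by nlinarith
    exact mul_le_mul_of_nonneg_left this hh.le
  have : 0 < h * T ^ 2 := by positivity
  rw [abs_le]
  constructor <;> linarith

theorem rs_memst {E : List Be} {q : List (ℕ × ℕ)} (h : q ∈ stI E.length) : q ∈ bil E := by
  simp only [bil, List.mem_append]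
  exact Or.inl h

theorem rs_memup {E : List Be} {q : List (ℕ × ℕ)} {i : ℕ} (hi : i < an E.length)
    (h : q ∈ sqI (5 + i) (5 + i + 1)) : q ∈ bil E := by
  simp only [bil, List.mem_append]
  exact Or.inr (Or.inl (List.mem_flatMap.mpr ⟨i, List.mem_range.mpr hi, h⟩))

theorem rs_memdn {E : List Be} {q : List (ℕ × ℕ)} {i : ℕ} (hi : i < bn E.length)
    (h : q ∈ sqI (hv E.length i) (hv E.length (i + 1))) : q ∈ bil E := by
  simp only [bil, List.mem_append]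
  exact Or.inr (Or.inr (Or.inl (List.mem_flatMap.mpr ⟨i, List.mem_range.mpr hi, h⟩)))

theorem rs_membd2 {E : List Be} {q : List (ℕ × ℕ)} (h : q ∈ bdI E.length 2) : q ∈ bil E := by
  simp only [bil, List.mem_append]
  exact Or.inr (Or.inr (Or.inr (Or.inl h)))

theorem rs_membd {E : List Be} {q : List (ℕ × ℕ)} {i : ℕ} (hi : i < 3 * E.length)
    (h : q ∈ bdI E.length (xv E.length i)) : q ∈ bil E := by
  simp only [bil, List.mem_append]
  exact Or.inr (Or.inr (Or.inr (Or.inr (Or.inl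
    (List.mem_flatMap.mpr ⟨i, List.mem_range.mpr hi, h⟩)))))

theorem rs_memeq {E : List Be} {q : List (ℕ × ℕ)} {t : ℕ} (ht : t < E.length)
    (h : q ∈ eqI E.length t (E.getD t (0, 0, 0, 0))) : q ∈ bil E := by
  simp only [bil, List.mem_append]
  exact Or.inr (Or.inr (Or.inr (Or.inr (Or.inr
    (List.mem_flatMap.mpr ⟨t, List.mem_range.mpr ht, h⟩)))))

/-- consistency of a variable -/
theorem rs_bd {X Y : ℕ → ℝ} {Q : List (List (ℕ × ℕ))} {ν u : ℕ}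
    (hX : ∀ i, 0 < X i) (hX0 : X 0 = 1) (hY0 : Y 0 = 1)
    (hq : ∀ q ∈ Q, pp X Y q 0 + pp X Y q 1 + pp X Y q 2 < pp X Y q 3 + pp X Y q 4)
    {h T : ℝ} (hh : 0 < h) (hT : X (5 + an ν) ≤ T) (h3 : Y 3 < 1 + h) (h4 : 1 - h < Y 4)
    (hm : ∀ q ∈ bdI ν u, q ∈ Q) :
    X u ≤ T ∧ X u - h * T ≤ Y u ∧ Y u ≤ X u + h * T := by
  have e1 := rs_get hq (hm [(u, 0), (0, 0), (1, 0), (5 + an ν, 0), (0, 0)] (by simp [bdI]))
  have e2 := rs_get hq (hm [(u, 4), (0, 0), (1, 0), (0, u), (0, 0)] (by simp [bdI]))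
  have e3 := rs_get hq (hm [(0, u), (0, 0), (1, 0), (u, 3), (0, 0)] (by simp [bdI]))
  rw [hX0, hY0] at e1 e2 e3
  have hX1 := hX 1
  have t1 : X u ≤ T := by linarith
  obtain ⟨a1, a2⟩ := rs_rel hh h3 h4 (hX u) t1
  exact ⟨t1, by linarith, by linarith⟩

theorem st_RS (hRG : ST_RG) : ST_RS := by
  intro E hE hB hS
  obtain ⟨X, Y, hX, hY, hX0, hY0, hq⟩ := rs_norm hS
  refine hRG E hE hB ?_
  obtain ⟨ν, hν⟩ : ∃ ν, ν = E.length := ⟨_, rfl⟩
  have hX1 := hX 1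
  -- start of the chains
  have s1 := rs_get hq (rs_memst (E := E) (q := [(5, 0), (1, 0), (1, 0), (0, 0), (0, 0)])
    (by simp [stI]))
  have s2 := rs_get hq (rs_memst (E := E) (q := [(0, 5), (1, 0), (1, 0), (0, 0), (0, 0)])
    (by simp [stI]))
  have s3 := rs_get hq (rs_memst (E := E)
    (q := [(hv E.length 0, 0), (hv E.length 0, 0), (0, 0), (0, 0), (0, 0)]) (by simp [stI]))
  have s4 := rs_get hq (rs_memst (E := E)
    (q := [(0, hv E.length 0), (0, hv E.length 0), (0, 0), (0, 0), (0, 0)]) (by simp [stI]))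
  have s5 := rs_get hq (rs_memst (E := E)
    (q := [(0, 3), (1, 0), (1, 0), (0, 0), (hv E.length (bn E.length), 0)]) (by simp [stI]))
  have s6 := rs_get hq (rs_memst (E := E)
    (q := [(0, 0), (1, 0), (1, 0), (0, 4), (hv E.length (bn E.length), 0)]) (by simp [stI]))
  rw [hX0, hY0] at s1 s2 s3 s4 s5 s6
  -- squares
  have sq : ∀ u w : ℕ, (∀ q ∈ sqI u w, q ∈ bil E) → X w < X u * Y u ∧ Y w < X u * Y u := by
    intro u w hm
    have e1 := rs_get hq (hm [(w, 0), (0, 0), (1, 0), (u, u), (0, 0)] (by simp [sqI]))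
    have e2 := rs_get hq (hm [(0, w), (0, 0), (1, 0), (u, u), (0, 0)] (by simp [sqI]))
    rw [hX0, hY0] at e1 e2
    exact ⟨by linarith, by linarith⟩
  have up := rs_up hX hY (fun i => 5 + i) (an E.length) (by simp only [add_zero]; linarith)
    (by simp only [add_zero]; linarith)
    (fun i hi => sq (5 + i) (5 + (i + 1)) (fun q hq' => rs_memup hi hq'))
    (an E.length) le_rfl
  have dn := rs_dn hX hY (fun i => hv E.length i) (bn E.length) (by linarith) (by linarith)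
    (fun i hi => sq (hv E.length i) (hv E.length (i + 1)) (fun q hq' => rs_memdn hi hq'))
    (bn E.length) le_rfl
  obtain ⟨h, hhd⟩ : ∃ h, h = X (hv E.length (bn E.length)) := ⟨_, rfl⟩
  have hh : 0 < h := by rw [hhd]; exact hX _
  have hhb : h ≤ (1 / 2) ^ 2 ^ bn E.length := by rw [hhd]; exact dn.1.le
  rw [← hhd] at s5 s6
  have h3 : Y 3 < 1 + h := by linarith
  have h4 : 1 - h < Y 4 := by linarith
  obtain ⟨T, hTd⟩ : ∃ T : ℝ, T = 2 ^ 2 ^ an E.length := ⟨_, rfl⟩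
  have hT1 : 1 ≤ T := by rw [hTd]; exact one_le_pow₀ (by norm_num)
  have hT0 : 0 < T := by linarith
  have hTX : X (5 + an E.length) ≤ T := by rw [hTd]; exact up.1.le
  obtain ⟨b2, b2'⟩ := rs_bd (ν := E.length) (u := 2) hX hX0 hY0 hq hh hTX h3 h4
    (fun q hq' => rs_membd2 hq')
  have bd : ∀ i < 3 * E.length, X (xv E.length i) ≤ T ∧
      (X (xv E.length i) - h * T ≤ Y (xv E.length i) ∧
        Y (xv E.length i) ≤ X (xv E.length i) + h * T) :=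
    fun i hi => rs_bd hX hX0 hY0 hq hh hTX h3 h4 (fun q hq' => rs_membd hi hq')
  have hfin : h * (8 * T ^ 2) * 2 ^ 2 ^ (bn E.length - 8) ≤ 1 :=
    rs_exp hTd (by simp only [an, bn]; omega) (by simp only [bn]; omega) hhb
  have fin : ∀ s : ℝ, s ≤ h * (8 * T ^ 2) → s * 2 ^ 2 ^ (bn E.length - 8) ≤ 1 := by
    intro s hs
    exact (mul_le_mul_of_nonneg_right hs (by positivity)).trans hfin
  refine ⟨fun i => if i < E.length then X (xv E.length i) - X 2 else 0, ?_, ?_⟩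
  · intro i
    rw [← hTd]
    dsimp only
    split_ifs with hi
    · have p1 := (bd i (by omega)).1
      have p2 := hX (xv E.length i)
      have p3 := hX 2
      rw [abs_le]
      constructor <;> linarith
    · simpa using hT0.le
  · intro e he
    obtain ⟨l1, l2, l3⟩ := hB e he
    obtain ⟨t, ht, hte⟩ := List.getElem_of_mem he
    have hget : E.getD t (0, 0, 0, 0) = e := by
      rw [List.getD_eq_getElem _ _ ht, hte]
    have hmem : ∀ q ∈ eqI E.length t e, q ∈ bil E := by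
      intro q hq'
      exact rs_memeq ht (by rw [hget]; exact hq')
    dsimp only
    rw [if_pos l1, if_pos l2, if_pos l3]
    have bi := bd e.2.1 (by omega)
    have bj := bd e.2.2.1 (by omega)
    have bk := bd e.2.2.2 (by omega)
    refine ⟨fun h0 => ?_, fun h1 => ?_, fun h0 h1 => ?_⟩
    · have e1 := rs_get hq (hmem [(xv E.length e.2.1, 4), (1, 0), (1, 0), (2, 0), (0, 0)]
        (by simp [eqI, h0]))
      have e2 := rs_get hq (hmem [(2, 0), (0, 0), (0, 0), (xv E.length e.2.1, 3), (0, 0)]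
        (by simp [eqI, h0]))
      rw [hX0, hY0] at e1 e2
      simp only [mul_one] at e1 e2
      exact fin _ (rs_one hh hT1 h3 h4 hX1 (hX _) bi.1 e1 e2)
    · have e1 := rs_get hq (hmem [(xv E.length e.2.1, 0), (xv E.length e.2.2.1, 0), (1, 0),
        (xv E.length e.2.2.2, 3), (2, 3)] (by simp [eqI, h1]))
      have e2 := rs_get hq (hmem [(xv E.length e.2.2.2, 4), (2, 4), (1, 0),
        (xv E.length e.2.1, 0), (xv E.length e.2.2.1, 0)] (by simp [eqI, h1]))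
      rw [hY0] at e1 e2
      simp only [mul_one] at e1 e2
      exact fin _ (rs_add hh hT1 h3 h4 hX1 (hX _) bk.1 (hX 2) b2 e1 e2)
    · have hA := bd (E.length + 2 * t + 0) (by omega)
      have hA' := bd (E.length + 2 * t + 1) (by omega)
      have ea : xv E.length (E.length + 2 * t + 0) = av E.length t 0 := by
        simp only [xv, av]; ring
      have eb : xv E.length (E.length + 2 * t + 1) = av E.length t 1 := by
        simp only [xv, av]; ring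
      rw [ea] at hA
      rw [eb] at hA'
      have e1 := rs_get hq (hmem [(xv E.length e.2.1, xv E.length e.2.2.1), (2, 2), (0, 0),
        (av E.length t 0, 3), (0, 0)] (by simp [eqI, h0, h1]))
      have e2 := rs_get hq (hmem [(av E.length t 0, 4), (1, 0), (1, 0),
        (xv E.length e.2.1, xv E.length e.2.2.1), (2, 2)] (by simp [eqI, h0, h1]))
      have e3 := rs_get hq (hmem [(xv E.length e.2.1, 2), (xv E.length e.2.2.1, 2), (0, 0),
        (av E.length t 1, 3), (0, 0)] (by simp [eqI, h0, h1]))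
      have e4 := rs_get hq (hmem [(av E.length t 1, 4), (1, 0), (1, 0),
        (xv E.length e.2.1, 2), (xv E.length e.2.2.1, 2)] (by simp [eqI, h0, h1]))
      have e5 := rs_get hq (hmem [(av E.length t 0, 0), (2, 0), (1, 0),
        (xv E.length e.2.2.2, 3), (av E.length t 1, 3)] (by simp [eqI, h0, h1]))
      have e6 := rs_get hq (hmem [(xv E.length e.2.2.2, 4), (av E.length t 1, 4), (1, 0),
        (av E.length t 0, 0), (2, 0)] (by simp [eqI, h0, h1]))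
      rw [hY0] at e1 e2 e3 e4 e5 e6
      rw [hX0] at e1 e3
      simp only [mul_one] at e1 e2 e3 e4 e5 e6
      exact fin _ (rs_mul hh hT1 h3 h4 hX1 (hX _) (hX _) (hX _) (hX 2) (hX _) (hX _)
        bi.1 bj.1 bk.1 b2 hA.1 hA'.1 bj.2 b2' e1 e2 e3 e4 e5 e6)

end Pool.Agent.Helper54.SP
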